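import Pool.Agent.Work.MP_64ea0f_cs.InterfaceG3

set_option autoImplicit false

/-! Block NMV: a move changes the class -/

namespace Pool.CS

theorem nmv_thm : Stmt_MVE → Stmt_RD2 → Stmt_MSA → Stmt_FR1 → Stmt_VX2 → Stmt_NMV := by
  intro hMVE hRD2 hMSA _ hVX2 D K hfin C N hok H hlab x φ hx hφ hfl hE
  obtain ⟨z, hz, hzx, hzf⟩ := hE
  obtain ⟨φ', hφ', _, _, hmr⟩ := hMVE D K hfin C N hok H hlab z x hz hzx φ hφ hfl
  obtain ⟨_, h2, h3, h4⟩ := hRD2 D K hfin C N hok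
  obtain ⟨z2, hz2, hz2u, hz2f⟩ := h4 _ _ hmr
  obtain ⟨Δ, ν, hsh, _⟩ := h2 z z2 hz hz2 _ hzf hz2f
  have h5 : D.MR K N z (D.fl z φ') := h3 z z2 _ hz hz2 ⟨Δ, ν, hsh⟩ hz2u
  have h6 := (hMSA D K hfin N).2.2.2.2.2.1 hok.2.1 z (D.fl z φ') h5 (by
    intro a ha b hb ha' hb'
    have key : ∀ c ∈ z, c ∉ D.fl z φ' → c = φ' := by
      intro c hc hc'
      by_contra hne
      exact hc' (Set.mem_insert_of_mem _ ⟨hc, hne⟩)
    rw [key a ha ha', key b hb hb'])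
  exact (hVX2 D z hz.1.1 φ' hφ').2.2.2.1 h6.symm

end Pool.CS
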