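import Pool.Agent.Work.MP_64ea0f_cs.InterfaceG4
import Pool.Agent.Work.MP_64ea0f_cs_helper29.RTW2
import Pool.Agent.Work.MP_64ea0f_cs_helper63.Orb

set_option autoImplicit false

/-! Block RTWG: the property `RT` for squares of elements of a deep subgroup, without `AF`. -/

namespace Pool.CS

namespace RTWG

/-- roots are nonzero -/
theorem root_ne_zero (D : Rd) (φ : D.V) (h : φ ∈ D.Rt) : φ ≠ 0 := by
  obtain ⟨w, s, rfl⟩ := h
  intro h0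
  have h1 : D.ρ w⁻¹ (D.ρ w (D.e s)) = 0 := by rw [h0, map_zero]
  have h2 : D.ρ w⁻¹ (D.ρ w (D.e s)) = D.e s := by
    have : (D.ρ w⁻¹ * D.ρ w) (D.e s) = D.e s := by
      rw [← map_mul, inv_mul_cancel, map_one]; rfl
    exact this
  rw [h2] at h1
  have h3 := congrFun h1 s
  simp [Rd.e] at h3

theorem not_in_empty (D : Rd) (φ : D.V) (h : φ ∈ D.Ps) : ¬ D.In ∅ φ := by
  intro h1
  exact root_ne_zero D φ h.1 (funext fun s => h1 s (Set.notMem_empty s))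

theorem yj_iff (D : Rd) (x : Set D.V) : D.YJ ∅ x ↔ D.Vx x :=
  ⟨fun h => h.1, fun h => ⟨h, fun φ hφ hi => (not_in_empty D φ hφ hi).elim⟩⟩

theorem mem_nj (D : Rd) (n : D.W) : n ∈ D.NJ ∅ := by
  intro φ
  exact ⟨fun h => (not_in_empty D φ h.1 h.2).elim, fun h => (not_in_empty D _ h.1 h.2).elim⟩

theorem par_empty (D : Rd) : Finite (D.par ∅) := by
  unfold Rd.par
  rw [Set.image_empty, Subgroup.closure_empty]
  infer_instance

/-- the general virtual retraction -/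
theorem vrc (hYJ4 : Stmt_YJ4) (hFLD : Stmt_FLD) (hVX1 : Stmt_VX1) (hVX4 : Stmt_VX4)
    (D : Rd) (H : Subgroup D.W) (hH : D.Deep H) (L : LS (D.lg H) D.X) (hL : D.IsFlip H L)
    (b : D.X) (κ : D.X → RC (D.lg H)) (c : H →* RC (D.lg H)) (hdev : D.Dev H L b κ c)
    (hc : Function.Injective c) :
    ∃ (K : Subgroup (RC (D.lg H))) (r : K →* H), K.FiniteIndex ∧
      ∀ h : H, ∃ hk : c h ∈ K, r ⟨c h, hk⟩ = h := by
  obtain ⟨hVPs, hVact, hact1, hactm, -, -, -, -, -, -, hVdiff⟩ := hVX1 D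
  have hHn := hH.nor
  have hHf := hH.fin
  obtain ⟨⟨LJ, hLJ⟩, hYJ4b⟩ := hYJ4 D H hH ∅ (par_empty D)
  obtain ⟨heq, -⟩ := hYJ4b LJ hLJ
  obtain ⟨ι, Q, q, LQ, ⟨i⟩, hsurj, hwd, hmove, hcore, hfree, horb, -⟩ :=
    hFLD D H hH L hL b κ c hdev hc ∅ (par_empty D) LJ hLJ
  -- vertices of `YT ∅`
  let Y : D.X → D.YT ∅ := fun x => ⟨x.1, (yj_iff D x.1).mpr x.2⟩
  have hρ : ∀ (u v : D.W) (φ : D.V), D.ρ (u * v) φ = D.ρ u (D.ρ v φ) := by
    intro u v φ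
    rw [map_mul]; rfl
  have hlab : ∀ (h : D.W), h ∈ H → ∀ a : D.Lb H, a.1 = D.ρ h '' a.1 := by
    intro h hh a
    obtain ⟨φ, -, ha⟩ := a.2
    rw [ha]
    ext ψ
    constructor
    · rintro ⟨g, hg, h1⟩
      refine ⟨D.ρ h⁻¹ ψ, ⟨h⁻¹ * g, H.mul_mem (H.inv_mem hh) hg, ?_⟩, ?_⟩
      · rcases h1 with rfl | rfl
        · left; rw [hρ]
        · right; rw [hρ, map_neg]
      · rw [← hρ, mul_inv_cancel, map_one]; rfl
    · rintro ⟨χ, ⟨g, hg, h1⟩, rfl⟩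
      refine ⟨h * g, H.mul_mem hh hg, ?_⟩
      rcases h1 with rfl | rfl
      · left; rw [hρ]
      · right; rw [hρ, map_neg]
  -- the action of elements of `H` on `YT ∅` commutes with `LJ`
  let A0 : D.W → D.YT ∅ → D.YT ∅ := fun h x =>
    ⟨D.act h x.1, (yj_iff D _).mpr (hVact _ x.2.1 h)⟩
  have hA0 : ∀ h ∈ H, ∀ a x, LJ.τ a (A0 h x) = A0 h (LJ.τ a x) := by
    intro h hh a x
    exact Subtype.ext (heq h (mem_nj D h) a a (hlab h hh a) x (A0 h x) rfl)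
  -- the induced action on `Q i`
  choose s hs using hsurj i
  let A : H → Q i → Q i := fun h v => q i (A0 h.1 (s v))
  have hAq : ∀ (h : H) x, A h (q i x) = q i (A0 h.1 x) := by
    intro h x
    exact hwd i h.1 (mem_nj D _) (s (q i x)) x _ _ rfl rfl (hs _)
  have A1 : ∀ v, A 1 v = v := by
    intro v
    obtain ⟨x, rfl⟩ := hsurj i v
    rw [hAq]
    congr 1
    exact Subtype.ext (hact1 _)
  have Am : ∀ g g' v, A (g * g') v = A g (A g' v) := by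
    intro g g' v
    obtain ⟨x, rfl⟩ := hsurj i v
    rw [hAq (g * g') x, hAq g' x, hAq g]
    congr 1
    exact Subtype.ext (hactm _ _ _)
  have Ac0 : ∀ g a v, (LQ i).τ a v ≠ v → A g ((LQ i).τ a v) = (LQ i).τ a (A g v) := by
    intro g a v hv
    obtain ⟨x, rfl, hx⟩ := hcore i v
    have h1 := hx a hv
    have h2 := (hmove i a x h1).1
    have h3 : LJ.τ a (A0 g.1 x) ≠ A0 g.1 x := by
      rw [hA0 g.1 g.2]
      intro h4
      apply h1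
      have h5 := congrArg (A0 g.1⁻¹) h4
      have h6 : ∀ z, A0 g.1⁻¹ (A0 g.1 z) = z := by
        intro z
        refine Subtype.ext ?_
        change D.act g.1⁻¹ (D.act g.1 z.1) = z.1
        rw [← hactm, inv_mul_cancel, hact1]
      rwa [h6, h6] at h5
    rw [h2, hAq, hAq, (hmove i a _ h3).1, hA0 g.1 g.2]
  have Ac : ∀ g a v, A g ((LQ i).τ a v) = (LQ i).τ a (A g v) := by
    intro g a v
    by_cases hv : (LQ i).τ a v = v
    · rw [hv]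
      by_contra h1
      have h2 := Ac0 g⁻¹ a (A g v) (Ne.symm h1)
      rw [← Am, inv_mul_cancel, A1, hv] at h2
      have h3 := congrArg (A g) h2
      rw [← Am, mul_inv_cancel, A1] at h3
      exact h1 h3.symm
    · exact Ac0 g a v hv
  -- free
  have hbfree : ∀ g, A g (q i (Y b)) = q i (Y b) → g = 1 := by
    intro g hg
    rw [hAq] at hg
    exact Subtype.ext (hfree i g.1 g.2 (mem_nj D _) (Y b) _ rfl hg)
  -- orbits
  obtain ⟨P, hPf, hP⟩ := horb i H hHn hHf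
  have hPfin : Finite P := hPf
  have hι : ∀ v : Q i, ∃ m : H, A m v ∈ P := by
    intro v
    obtain ⟨x, rfl⟩ := hsurj i v
    obtain ⟨m, hm, -, x', hx', hx'P⟩ := hP x
    refine ⟨⟨m, hm⟩, ?_⟩
    rw [hAq]
    have : A0 m x = x' := Subtype.ext hx'.symm
    change q i (A0 m x) ∈ P
    rwa [this]
  choose mv hmv using hι
  obtain ⟨K, r, hKf, hK, hKr⟩ := stab_fin (LQ i) A A1 Am Ac (q i (Y b)) hbfree
    (fun v => (⟨A (mv v) v, hmv v⟩ : P)) (by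
      intro v v' h
      refine ⟨(mv v)⁻¹ * mv v', ?_⟩
      have h1 : A (mv v) v = A (mv v') v' := congrArg Subtype.val h
      rw [Am, ← h1, ← Am, inv_mul_cancel, A1])
  -- the path
  have hpath : ∀ n : ℕ, ∀ x : D.X, (x.1 \ D.Ps).ncard = n → (LQ i).r (q i (Y b)) (κ x) = q i (Y x) := by
    intro n
    induction n with
    | zero =>
      intro x hx
      obtain ⟨hxf, -, hsub⟩ := hVdiff x.1 x.2 D.Ps hVPs
      have h1 : x.1 \ D.Ps = ∅ := (Set.ncard_eq_zero hxf).mp hx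
      have h2 : x = b := Subtype.ext ((hsub (Set.diff_eq_empty.mp h1)).trans hdev.base.symm)
      rw [h2, hdev.one, LS.r_one]
    | succ n ih =>
      intro x hx
      have h1 : (x.1 \ D.Ps).Nonempty := by
        rw [Set.nonempty_iff_ne_empty]
        intro h2
        rw [h2, Set.ncard_empty] at hx
        omega
      obtain ⟨φ, hφx, hφ⟩ := h1
      obtain ⟨ψ, hψ, hψP, -, hcard⟩ := hVX4 D x.1 x.2 D.Ps hVPs φ hφx hφ
      have hψR : ψ ∈ D.Rt := x.2.sub hψ.1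
      let a : D.Lb H := ⟨D.lab H ψ, ψ, hψR, rfl⟩
      have hψa : ψ ∈ a.1 := ⟨1, H.one_mem, Or.inl (by rw [map_one]; rfl)⟩
      have e1 : (L.τ a x).1 = D.fl x.1 ψ := (hL a x).1 ψ hψ hψa
      have hyn : ((L.τ a x).1 \ D.Ps).ncard = n := by rw [e1]; omega
      have hne : L.τ a x ≠ x := by
        intro h2
        rw [h2] at hyn
        omega
      have hV : D.Vx (D.fl x.1 ψ) := by rw [← e1]; exact (L.τ a x).2
      have e2 : (LJ.τ a (Y x)).1 = D.fl x.1 ψ := (hLJ a (Y x)).1 ψ hψ hψa ((yj_iff D _).mpr hV)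
      have e3 : LJ.τ a (Y x) = Y (L.τ a x) := Subtype.ext (e2.trans e1.symm)
      have e4 : LJ.τ a (Y (L.τ a x)) = Y x := by rw [← e3, LJ.inv]
      have hneJ : LJ.τ a (Y (L.τ a x)) ≠ Y (L.τ a x) := by
        rw [e4]
        intro h2
        exact hne (Subtype.ext (congrArg (fun z : D.YT ∅ => z.1) h2).symm)
      have e5 : κ x = κ (L.τ a x) * rg (D.lg H) a := by
        rw [hdev.step a x hne, mul_assoc, rg_mul_self, mul_one]
      rw [e5, LS.r_mul, ih _ hyn, LS.r_rg, (hmove i a _ hneJ).1, e4]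
  have hfin : ∀ h : H, (LQ i).r (q i (Y b)) (c h) = A h (q i (Y b)) := by
    intro h
    have h1 := hdev.hol h b ⟨D.act h.1 b.1, hVact _ b.2 h.1⟩ rfl
    rw [hdev.one, mul_one] at h1
    rw [← h1, hpath _ _ rfl, hAq]
  refine ⟨K, r, hKf, fun h => ⟨(hK _).mpr ⟨h, hfin h⟩, ?_⟩⟩
  have h1 := (hfin h).symm.trans (hKr ⟨c h, (hK _).mpr ⟨h, hfin h⟩⟩)
  have h2 : A (h⁻¹ * r ⟨c h, (hK _).mpr ⟨h, hfin h⟩⟩) (q i (Y b)) = q i (Y b) := by
    rw [Am, ← h1, ← Am, inv_mul_cancel, A1]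
  have h3 := hbfree _ h2
  rw [inv_mul_eq_one] at h3
  exact h3.symm

theorem core (hLBF : Stmt_LBF)
    (D : Rd) (H : Subgroup D.W) (hH : D.Deep H)
    (c : H →* RC (D.lg H))
    (hVR : ∃ (K : Subgroup (RC (D.lg H))) (r : K →* H), K.FiniteIndex ∧
      ∀ h : H, ∃ hk : c h ∈ K, r ⟨c h, hk⟩ = h) (x : D.W) (hx : x ∈ H) (y : D.W)
    (hy : y ∈ H) (hRTC : ∀ [Finite (D.Lb H)] (c : H →* RC (D.lg H)) (g : D.W)
      (hg : g * y * g⁻¹ ∈ H), RT (c ⟨x, hx⟩) (c ⟨g * y * g⁻¹, hg⟩)) : RT x y := by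
  intro M hMn hMf
  obtain ⟨K, r, hKf, hK⟩ := hVR
  have hHn := hH.nor
  have hHf := hH.fin
  have hfinLb : Finite (D.Lb H) := hLBF D H hHf
  -- the subgroup `M_C`
  have hMH : (M.subgroupOf H).FiniteIndex := inferInstance
  have hT1 : ((M.subgroupOf H).comap r).FiniteIndex := RTW2.finite_comap r _
  obtain ⟨MC, hMCn, hMCf, hMC⟩ := RTW2.exists_normal K ((M.subgroupOf H).comap r)
  -- the conjugates of `y`
  let rep : D.W ⧸ H → D.W := fun i => Quotient.out i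
  have hrep : ∀ g : D.W, g * (rep (g : D.W ⧸ H))⁻¹ ∈ H := by
    intro g
    rw [← QuotientGroup.eq_one_iff, QuotientGroup.mk_mul, QuotientGroup.mk_inv]
    have : ((rep (g : D.W ⧸ H) : D.W) : D.W ⧸ H) = (g : D.W ⧸ H) := Quotient.out_eq' _
    rw [this, mul_inv_cancel]
  let yi : D.W ⧸ H → H := fun i => ⟨rep i * y * (rep i)⁻¹, hHn.conj_mem y hy _⟩
  have hR : ∀ i, ∃ M' : Subgroup (RC (D.lg H)), M'.Normal ∧ M'.FiniteIndex ∧
      ∀ γ, γ * c (yi i) * γ⁻¹ * (c ⟨x, hx⟩)⁻¹ ∈ M' → ∃ m ∈ MC, (m * γ) * c (yi i) * (m * γ)⁻¹ =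
        c ⟨x, hx⟩ := fun i => hRTC c (rep i) _ MC hMCn hMCf
  choose M' hM'n hM'f hM' using hR
  have hfinq : Finite (D.W ⧸ H) := Subgroup.finite_quotient_of_finiteIndex
  have hT2 : (⨅ i, (M' i).comap c).FiniteIndex := by
    refine Subgroup.finiteIndex_iInf fun i => ?_
    have := hM'f i
    exact RTW2.finite_comap c _
  obtain ⟨M2, hM2n, hM2f, hM2⟩ := RTW2.exists_normal H (⨅ i, (M' i).comap c)
  refine ⟨M2, hM2n, hM2f, fun g hg => ?_⟩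
  set i : D.W ⧸ H := (g : D.W ⧸ H) with hi
  let h : H := ⟨g * (rep i)⁻¹, hrep g⟩
  obtain ⟨hgH, hgT⟩ := hM2 _ hg
  have heq : (⟨g * y * g⁻¹ * x⁻¹, hgH⟩ : H) = h * yi i * h⁻¹ * (⟨x, hx⟩ : H)⁻¹ := by
    apply Subtype.ext
    change g * y * g⁻¹ * x⁻¹ = g * (rep i)⁻¹ * (rep i * y * (rep i)⁻¹) * (g * (rep i)⁻¹)⁻¹ * x⁻¹
    group
  rw [heq] at hgT
  have hgT' := (Subgroup.mem_iInf.mp hgT) i
  rw [Subgroup.mem_comap, map_mul, map_mul, map_mul, map_inv, map_inv] at hgT'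
  obtain ⟨m, hm, hm1⟩ := hM' i (c h) hgT'
  obtain ⟨hmK, hmT⟩ := hMC m hm
  obtain ⟨hhK, hhr⟩ := hK h
  obtain ⟨hyK, hyr⟩ := hK (yi i)
  obtain ⟨hxK, hxr⟩ := hK ⟨x, hx⟩
  have h3 : ((⟨m, hmK⟩ : K) * ⟨c h, hhK⟩) * ⟨c (yi i), hyK⟩ * ((⟨m, hmK⟩ : K) * ⟨c h, hhK⟩)⁻¹ =
      ⟨c ⟨x, hx⟩, hxK⟩ := Subtype.ext hm1
  have h4 := congrArg r h3
  rw [map_mul, map_mul, map_inv, map_mul, hhr, hyr, hxr] at h4
  have h5 := congrArg (fun z : H => (z : D.W)) h4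
  refine ⟨(r ⟨m, hmK⟩ : D.W), ?_, ?_⟩
  · have h6 := hmT
    rw [Subgroup.mem_comap, Subgroup.mem_subgroupOf] at h6
    exact h6
  · have h7 : ((r ⟨m, hmK⟩ : D.W) * (g * (rep i)⁻¹)) * (rep i * y * (rep i)⁻¹) *
        ((r ⟨m, hmK⟩ : D.W) * (g * (rep i)⁻¹))⁻¹ = x := h5
    rw [← h7]
    group

end RTWG

theorem rtwg_thm (hLBF : Stmt_LBF) (hLSX : Stmt_LSX) (hDEV : Stmt_DEV) (hYJ4 : Stmt_YJ4)
    (hFLD : Stmt_FLD) (hRTC2 : Stmt_RTC2) (hVX1 : Stmt_VX1) (hVX4 : Stmt_VX4) : Stmt_RTWG := by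
  intro D H hH x hx y hy
  obtain ⟨L, hL⟩ := (hLSX D H hH).1
  obtain ⟨b, κ, c, hdev, hc⟩ := hDEV D H hH L hL
  have hVR := RTWG.vrc hYJ4 hFLD hVX1 hVX4 D H hH L hL b κ c hdev hc
  refine RTWG.core hLBF D H hH c hVR (x ^ 2) (H.pow_mem hx 2) (y ^ 2) (H.pow_mem hy 2) ?_
  intro _ c g hg
  have h1 : c ⟨x ^ 2, H.pow_mem hx 2⟩ = c ⟨x, hx⟩ ^ 2 := by
    rw [← map_pow]; rfl
  have h2 : (⟨g * y ^ 2 * g⁻¹, hg⟩ : H) = (⟨g * y * g⁻¹, hH.nor.conj_mem y hy g⟩ : H) ^ 2 := by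
    apply Subtype.ext
    change g * y ^ 2 * g⁻¹ = (g * y * g⁻¹) ^ 2
    rw [conj_pow]
  rw [h1, h2, map_pow]
  exact hRTC2 (D.Lb H) (D.lg H) _ _

end Pool.CS
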