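import Pool.Agent.Work.MP_64ea0f_cs.InterfaceE

set_option autoImplicit false

/-! Block YJ2: deep elements which normalise a finite parabolic subgroup -/

namespace Pool.CS

theorem yj2_thm : Stmt_BAS → Stmt_PAR → Stmt_YJ1 → Stmt_YJ2 := by
  intro hBAS hPAR hYJ1 D H hH J hfin m hm hmap
  obtain ⟨_, _, _, _, _, _, heRt, hRtW, hRtneg, _, _, hrfc, _, hrfe, _, _⟩ := hBAS D
  obtain ⟨_, _, _, hpar4, hpar5, _⟩ := hPAR D J
  obtain ⟨hPs, _, _, _⟩ := hYJ1 D J hfin
  have hinv : ∀ φ, D.ρ m⁻¹ (D.ρ m φ) = φ := by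
    intro φ
    have : (D.ρ m⁻¹ * D.ρ m) φ = φ := by
      rw [← map_mul, inv_mul_cancel, map_one]; rfl
    exact this
  have hIn : ∀ φ ∈ D.Rt, D.In J φ → D.In J (D.ρ m φ) := by
    intro φ hφ hφJ
    apply hpar5 _ (hRtW φ hφ m)
    rw [hrfc φ hφ m, ← hmap]
    exact ⟨D.rf φ, hpar4 φ hφ hφJ, rfl⟩
  have hsign : ∀ φ ∈ D.Rt, φ ∈ D.Ps ∨ -φ ∈ D.Ps := by
    intro φ hφ
    obtain ⟨w, s, h⟩ := id hφ
    rcases D.sign w s with h1 | h1
    · left
      refine ⟨hφ, fun t => ?_⟩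
      rw [h]; exact h1 t
    · right
      refine ⟨hRtneg φ hφ, fun t => ?_⟩
      rw [h]
      have := h1 t
      show 0 ≤ -(D.ρ w (D.e s) t)
      unfold Rd.e
      linarith
  have hfix : ∀ φ ∈ D.Ps, D.In J φ → D.ρ m φ = φ := by
    intro φ hφ hφJ
    have h1 : D.ρ m φ ∈ D.Rt := hRtW φ hφ.1 m
    have h2 : D.In J (D.ρ m φ) := hIn φ hφ.1 hφJ
    rcases hsign _ h1 with h3 | h3
    · exact hH.self D.Ps hPs.1 φ (D.ρ m φ) (hPs.2 φ hφ hφJ) (hPs.2 _ h3 h2) ⟨m, hm, Or.inl rfl⟩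
    · have h4 : D.In J (-D.ρ m φ) := by
        intro s hs
        have := h2 s hs
        show -(D.ρ m φ s) = 0
        rw [this, neg_zero]
      have h5 := hH.self D.Ps hPs.1 φ (-D.ρ m φ) (hPs.2 φ hφ hφJ) (hPs.2 _ h3 h4)
        ⟨m, hm, Or.inr rfl⟩
      exact absurd (neg_eq_iff_eq_neg.1 h5) (hH.inv m hm φ hφ.1)
  constructor
  · intro φ
    constructor
    · rintro ⟨h1, h2⟩
      rw [hfix φ h1 h2]
      exact ⟨h1, h2⟩
    · rintro ⟨h1, h2⟩
      have h3 := hfix _ h1 h2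
      have h4 : D.ρ m φ = φ := by
        have h5 := congrArg (D.ρ m⁻¹) h3
        rwa [hinv, hinv] at h5
      rw [h4] at h1 h2
      exact ⟨h1, h2⟩
  · have hle : D.par J ≤ Subgroup.centralizer {m} := by
      unfold Rd.par
      rw [Subgroup.closure_le]
      rintro _ ⟨s, hs, rfl⟩
      show D.σ s ∈ Subgroup.centralizer {m}
      rw [Subgroup.mem_centralizer_iff]
      intro g hg
      rw [Set.mem_singleton_iff] at hg
      rw [hg]
      have hes : D.e s ∈ D.Ps := by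
        refine ⟨heRt s, fun t => ?_⟩
        unfold Rd.e
        by_cases hts : t = s
        · subst hts; simp
        · rw [Pi.single_eq_of_ne hts]
      have hesJ : D.In J (D.e s) := by
        intro t ht
        have hts : t ≠ s := by rintro rfl; exact ht hs
        unfold Rd.e
        rw [Pi.single_eq_of_ne hts]
      have h1 := hrfc (D.e s) (heRt s) m
      rw [hfix _ hes hesJ, hrfe s] at h1
      -- `σ s = m * σ s * m⁻¹`
      conv_rhs => rw [h1]
      group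
    intro q hq
    have h1 := hle hq
    rw [Subgroup.mem_centralizer_iff] at h1
    exact h1 m rfl

end Pool.CS
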