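import Pool.Agent.Work.MP_64ea0f_cs.InterfaceE

set_option autoImplicit false

/-! Block YJ1: vertices of the cubing of the intersection of the walls of a finite parabolic subgroup -/

namespace Pool.CS

theorem yj1_thm : Stmt_BAS → Stmt_SGN → Stmt_PAR → Stmt_FPR → Stmt_NST → Stmt_NRM →
    Stmt_VX1 → Stmt_VX2 → Stmt_VX3 → Stmt_VX4 → Stmt_YJ1 := by
  intro hBAS hSGN hPAR hFPR hNST _ hVX1 hVX2 hVX3 hVX4 D J hfin
  obtain ⟨_, _, _, _, _, hBone, heRt, hRtW, hRtneg, hrf, hrf2, _, _, _, _, _⟩ := hBAS D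
  obtain ⟨_, hsgn2, _, _, _, _, _, _, _⟩ := hSGN D
  obtain ⟨_, _, _, hpar4, _, hpar6⟩ := hPAR D J
  obtain ⟨_, hfpr⟩ := hFPR D J hfin
  obtain ⟨hPs, hactV, hact1, hactm, hmem, hmem', hMn, _, hneg, hup, _⟩ := hVX1 D
  -- (4)
  have h4 : ∀ x, D.YJ J x → ∀ ψ, D.Mn x ψ →
      (D.YJ J (D.fl x ψ) ↔ ∀ φ ∈ D.Ps, D.In J φ → |D.B ψ φ| < 1) := by
    intro x hx ψ hψ
    have h2 := hVX2 D x hx.1 ψ hψ
    constructor
    · intro hf φ hφ hφJ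
      have hm : D.Mn (D.fl x ψ) φ := hf.2 φ hφ hφJ
      have hne : ψ ≠ φ := by
        rintro rfl
        exact hneg _ h2.1 _ hm.1 h2.2.1.1
      exact (hVX3 D x hx.1 ψ φ).2.2.2 hψ (hx.2 φ hφ hφJ) hm hne
    · intro hf
      refine ⟨h2.1, fun φ hφ hφJ => ?_⟩
      exact ((hVX3 D x hx.1 ψ φ).2.1 hψ (hx.2 φ hφ hφJ) (hf φ hφ hφJ)).1
  refine ⟨⟨hPs, ?_⟩, ?_, ?_, h4⟩
  · -- (1)
    intro φ hφ hφJ
    refine ⟨hφ, fun ψ hψ hsub => ?_⟩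
    by_contra hne
    by_cases hJ : D.In J ψ
    · have h1 : ψ ≠ -φ := by
        rintro rfl
        exact hsgn2 φ hφ hψ
      have h2 := hfpr φ hφ.1 ψ hψ.1 hφJ hJ hne h1
      have h3 := ((hNST D ψ hψ.1 φ hφ.1).1) hsub hne
      rw [D.B_symm] at h3
      have h4 := (abs_lt.1 h2).2
      linarith
    · have hw : D.rf φ ∈ D.par J := hpar4 φ hφ.1 hφJ
      have h1 : D.On (D.rf φ) ψ := hpar6 _ ((D.par J).inv_mem hw) ψ hψ hJ
      have h2 : D.On (D.rf φ) φ := hsub _ h1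
      have h3 : (D.rf φ)⁻¹ = D.rf φ := inv_eq_of_mul_eq_one_left (hrf2 φ hφ.1)
      unfold Rd.On at h2
      rw [h3, hrf φ hφ.1 φ, hBone φ hφ.1] at h2
      have h4 : φ - (2 * (1 : ℝ)) • φ = -φ := by
        rw [mul_one, two_smul]; abel
      rw [h4] at h2
      exact hsgn2 φ hφ h2
  · -- (2)
    intro n hn x hx
    refine ⟨hactV x hx.1 n, fun φ hφ hφJ => ?_⟩
    have h1 : D.ρ n (D.ρ n⁻¹ φ) = φ := by
      have : (D.ρ n * D.ρ n⁻¹) φ = φ := by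
        rw [← map_mul, mul_inv_cancel, map_one]; rfl
      exact this
    have h2 : D.ρ n⁻¹ φ ∈ D.Ps ∧ D.In J (D.ρ n⁻¹ φ) := by
      rw [hn (D.ρ n⁻¹ φ), h1]
      exact ⟨hφ, hφJ⟩
    have h3 := (hMn x hx.1 n (D.ρ n⁻¹ φ)).1 (hx.2 _ h2.1 h2.2)
    rwa [h1] at h3
  · -- (3)
    intro x hx y hy φ hφx hφy
    obtain ⟨ψ, hψ, hψy, hsub, hcard⟩ := hVX4 D x hx.1 y hy.1 φ hφx hφy
    refine ⟨ψ, hψ, hψy, ?_, hcard⟩
    rw [h4 x hx ψ hψ]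
    intro φ' hφ' hφJ'
    have hne : ψ ≠ φ' := by
      rintro rfl
      exact hψy (hy.2 _ hφ' hφJ').1
    rcases (hVX3 D x hx.1 ψ φ').1 hψ (hx.2 _ hφ' hφJ') hne with h | h
    · exact h
    · exfalso
      have h1 : ψ ∈ D.Rt := hx.1.sub hψ.1
      have h2 : -ψ ∈ y := by
        rcases hy.1.tot ψ h1 with h5 | h5
        · exact absurd h5 hψy
        · exact h5
      have h3 := (hy.2 φ' hφ' hφJ').2 (-ψ) h2 h.2
      have h5 := (hx.2 φ' hφ' hφJ').1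
      rw [← h3] at h5
      exact hneg x hx.1 ψ hψ.1 h5

end Pool.CS
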